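import Pool.Agent.H64.EV.Targets
import Pool.Agent.H2.NL.Targets2

/-!
# Complete intersections of even dimension (MP_fd35e1_ag): row OID
-/

set_option autoImplicit false

open Matrix Pool.Agent.H64.CC Pool.Agent.H2.NL Pool.Agent.H64.EV

namespace Pool.Agent.H46.EV

section

variable {K : Type} [Field K] {I : Type} [Fintype I]

theorem op_add (η : Matrix I I K) (l : ℕ) (t t' : List I → K) :
    op η l (t + t') = op η l t + op η l t' := by
  ext u u'
  simp only [op, opw, Matrix.of_apply, Matrix.add_apply, Pi.add_apply, add_mul,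
    Finset.sum_add_distrib]

theorem op_zero (η : Matrix I I K) (l : ℕ) : op η l (0 : List I → K) = 0 := by
  ext u u'
  simp only [op, opw, Matrix.of_apply, Matrix.zero_apply, Pi.zero_apply, zero_mul,
    Finset.sum_const_zero]

theorem op_smul [CharZero K] (η : Matrix I I K) (l : ℕ) (q : ℚ) (t : List I → K) :
    op η l (q • t) = q • op η l t := by
  ext u u'
  simp only [op, opw, Matrix.of_apply, Matrix.smul_apply, Pi.smul_apply, smul_mul_assoc,
    Finset.smul_sum]

/-- the operators of the classes of cycles are an algebra -/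
def alg [DecidableEq I] [CharZero K] (η : Matrix I I K) (l : ℕ) (B : Submodule ℚ (List I → K))
    (hmul : ∀ t ∈ B, ∀ t' ∈ B, ∃ t'' ∈ B, op η l t'' = op η l t * op η l t')
    (hone : ∃ t ∈ B, op η l t = 1) :
    Subalgebra ℚ (Matrix (List.Vector I l) (List.Vector I l) K) where
  carrier := {X | ∃ t ∈ B, op η l t = X}
  mul_mem' := by
    rintro X Y ⟨t, ht, rfl⟩ ⟨t', ht', rfl⟩
    exact hmul t ht t' ht'
  one_mem' := hone
  add_mem' := by
    rintro X Y ⟨t, ht, rfl⟩ ⟨t', ht', rfl⟩
    exact ⟨t + t', B.add_mem ht ht', op_add η l t t'⟩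
  zero_mem' := ⟨0, B.zero_mem, op_zero η l⟩
  algebraMap_mem' := by
    intro q
    obtain ⟨t, ht, h1⟩ := hone
    refine ⟨q • t, B.smul_mem q ht, ?_⟩
    rw [op_smul, h1, Algebra.algebraMap_eq_smul_one]

end

theorem pf_OID (hOML : T_OML) (hFTT : T_FTT) : T_OID := by
  intro K _ _ I _ _ F A hA l Z hZ htr hnil hnum
  obtain ⟨hmul, hidt, hone⟩ := hOML K I F A hA l
  set M := op F.η l Z with hM
  let S := alg F.η l (A l) hmul ⟨_, hidt, hone⟩
  have hMS : M ∈ S := ⟨Z, hZ, rfl⟩
  have hS : ∀ g : Polynomial ℚ, Polynomial.aeval M g ∈ S := by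
    intro g
    exact (Algebra.adjoin_singleton_le hMS) (Polynomial.aeval_mem_adjoin_singleton ℚ M)
  let e := Fintype.equivFin (List.Vector I l)
  let φ := Matrix.reindexAlgEquiv ℚ K e
  have htrφ : ∀ X : Matrix (List.Vector I l) (List.Vector I l) K, (φ X).trace = X.trace := by
    intro X
    simp only [φ, Matrix.trace, Matrix.diag_apply]
    exact Equiv.sum_comp e.symm (fun u => X u u)
  obtain ⟨g, hg1, hg2⟩ := hFTT K _ (φ M)
    (fun k => by rw [← map_pow, htrφ]; exact htr k)
    (fun n h => hnil n (by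
      rw [← map_pow] at h
      exact (map_eq_zero_iff φ φ.injective).1 h))
  have haev : Polynomial.aeval (φ M) g = φ (Polynomial.aeval M g) := by
    have := Polynomial.aeval_algHom_apply φ.toAlgHom M g
    exact this
  rw [haev, ← map_mul, ← map_mul] at hg1
  rw [haev, ← map_mul] at hg2
  have hE1 := φ.injective hg1
  have hE2 : M * Polynomial.aeval M g ≠ 0 := fun h => hg2 (by rw [h, map_zero])
  obtain ⟨e', he', hee⟩ := S.mul_mem hMS (hS g)
  have hcomm : M * Polynomial.aeval M g = Polynomial.aeval M g * M := by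
    have h1 : Polynomial.aeval M (Polynomial.X * g) = M * Polynomial.aeval M g := by
      rw [map_mul, Polynomial.aeval_X]
    have h2 : Polynomial.aeval M (g * Polynomial.X) = Polynomial.aeval M g * M := by
      rw [map_mul, Polynomial.aeval_X]
    rw [← h1, ← h2, mul_comm]
  refine ⟨e', he', ?_, ?_, ?_⟩
  · rw [hee]; exact hE1
  · rw [hee]; exact hE2
  · intro y hy
    obtain ⟨y', hy', hyy⟩ := S.mul_mem (⟨y, hy, rfl⟩ : op F.η l y ∈ S) (hS g)
    have h3 : op F.η l y * op F.η l e' = op F.η l y' * M := by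
      rw [hee, hyy, hcomm, mul_assoc]
    rw [h3]
    exact hnum y' hy'

end Pool.Agent.H46.EV
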