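import Pool.Agent.H64.EV.Targets

/-!
# Complete intersections of even dimension (MP_fd35e1_ag): row SCO
-/

set_option autoImplicit false

open Matrix Pool.Agent.H64.CC Pool.Agent.H2.NL Pool.Agent.H64.EV

namespace Pool.Agent.H46.EV

theorem opw_one {K : Type} [Field K] {I : Type} [Fintype I] (η : Matrix I I K) (t : List I → K)
    (a b : I) : opw η 1 t [a] [b] = ∑ c, t [a, c] * η c b := by
  unfold opw
  let e : I ≃ List.Vector I 1 :=
    { toFun := fun c => ⟨[c], rfl⟩
      invFun := fun v => v.head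
      left_inv := fun c => rfl
      right_inv := fun v => by
        obtain ⟨l, hl⟩ := v
        match l, hl with
        | [c], _ => rfl }
  rw [← e.sum_comp]
  refine Finset.sum_congr rfl fun c _ => ?_
  show t [a, c] * (List.zipWith (fun a b => η a b) [c] [b]).prod = _
  simp

theorem form_par {K : Type} [Field K] [CharZero K] {W : Weil K} {m : ℕ} {T : W.Var m}
    (P : W.Powers T) (a b : Fin (W.rk T)) (h : P.form a b ≠ 0) : W.par T a = W.par T b := by
  have h1 := P.form_deg a b h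
  unfold Weil.par
  have h2 : Odd (W.deg T a) ↔ Odd (W.deg T b) := by
    rw [Nat.odd_iff, Nat.odd_iff]
    omega
  simp [h2]

section alg

variable {K : Type} [Field K] {I : Type} [Fintype I]

/-- the endomorphism `x ↦ ⟨v, x⟩ u - ⟨u, x⟩ v` -/
def Mo (η : Matrix I I K) (u v : I → K) : Matrix I I K :=
  Matrix.of fun a b => u a * ∑ c, v c * η c b - v a * ∑ c, u c * η c b

theorem row_mulVec (η : Matrix I I K) (u x : I → K) :
    ∑ b, (∑ c, u c * η c b) * x b = u ⬝ᵥ (η *ᵥ x) := by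
  show _ = ∑ c, u c * ∑ b, η c b * x b
  simp only [Finset.mul_sum, Finset.sum_mul]
  rw [Finset.sum_comm]
  refine Finset.sum_congr rfl fun c _ => Finset.sum_congr rfl fun b _ => ?_
  ring

theorem Mo_mulVec (η : Matrix I I K) (u v x : I → K) :
    Mo η u v *ᵥ x = (v ⬝ᵥ (η *ᵥ x)) • u - (u ⬝ᵥ (η *ᵥ x)) • v := by
  ext a
  rw [← row_mulVec, ← row_mulVec]
  show ∑ b, (u a * (∑ c, v c * η c b) - v a * (∑ c, u c * η c b)) * x b =
    (∑ b, (∑ c, v c * η c b) * x b) * u a - (∑ b, (∑ c, u c * η c b) * x b) * v a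
  rw [Finset.sum_mul, Finset.sum_mul, ← Finset.sum_sub_distrib]
  refine Finset.sum_congr rfl fun b _ => ?_
  ring

theorem Mo_comm (η X : Matrix I I K) (u v : I → K) (h1 : ∀ a c, (Mo η u v * X) a c +
    (X * (Mo η u v)ᵀ) a c = 0) (h2 : ∀ a, (η *ᵥ u) a = ∑ c, u c * η c a)
    (h3 : ∀ a, (η *ᵥ v) a = ∑ c, v c * η c a) :
    Mo η u v * (X * η) = (X * η) * Mo η u v := by
  have e1 : Mo η u v * X = - (X * (Mo η u v)ᵀ) := by
    ext a c
    have := h1 a c
    rw [Matrix.neg_apply]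
    linear_combination this
  have e2 : (Mo η u v)ᵀ * η = - (η * Mo η u v) := by
    ext a b
    rw [Matrix.neg_apply, Matrix.mul_apply, Matrix.mul_apply]
    have e3 : ∑ c, η a c * Mo η u v c b = (η *ᵥ u) a * (∑ c, v c * η c b) -
        (η *ᵥ v) a * (∑ c, u c * η c b) := by
      show ∑ c, η a c * (u c * (∑ d, v d * η d b) - v c * (∑ d, u d * η d b)) =
        (∑ c, η a c * u c) * _ - (∑ c, η a c * v c) * _
      rw [Finset.sum_mul, Finset.sum_mul, ← Finset.sum_sub_distrib]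
      refine Finset.sum_congr rfl fun c _ => ?_
      ring
    have e4 : ∑ c, (Mo η u v)ᵀ a c * η c b = (∑ c, v c * η c a) * (∑ c, u c * η c b) -
        (∑ c, u c * η c a) * (∑ c, v c * η c b) := by
      show ∑ c, (u c * (∑ d, v d * η d a) - v c * (∑ d, u d * η d a)) * η c b = _
      rw [Finset.mul_sum, Finset.mul_sum, ← Finset.sum_sub_distrib]
      refine Finset.sum_congr rfl fun c _ => ?_
      ring
    rw [e3, e4, h2, h3]
    ring
  rw [← Matrix.mul_assoc, e1, Matrix.neg_mul, Matrix.mul_assoc, e2, Matrix.mul_neg, neg_neg,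
    Matrix.mul_assoc]

/-- the linear form `x ↦ ⟨u, x⟩` -/
def fr (η : Matrix I I K) (u : I → K) : (I → K) →ₗ[K] K where
  toFun x := u ⬝ᵥ (η *ᵥ x)
  map_add' x y := by rw [Matrix.mulVec_add, dotProduct_add]
  map_smul' c x := by rw [Matrix.mulVec_smul, dotProduct_smul]; rfl

/-- in a space of dimension at least three, a hyperplane is not a line -/
theorem exists_ker (U : Submodule K (I → K)) (h3 : 3 ≤ Module.finrank K U)
    (φ : (I → K) →ₗ[K] K) (u : I → K) : ∃ v ∈ U, φ v = 0 ∧ v ∉ Submodule.span K {u} := by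
  by_contra hcon
  push Not at hcon
  set ψ : U →ₗ[K] K := φ.comp U.subtype with hψ
  have h1 := LinearMap.finrank_range_add_finrank_ker ψ
  have h2 : Module.finrank K (LinearMap.range ψ) ≤ 1 := by
    have := Submodule.finrank_le (LinearMap.range ψ)
    rwa [Module.finrank_self] at this
  have h4 : Module.finrank K ((LinearMap.ker ψ).map U.subtype) = Module.finrank K (LinearMap.ker ψ) :=
    LinearEquiv.finrank_eq (Submodule.equivMapOfInjective U.subtype U.injective_subtype
      (LinearMap.ker ψ)).symm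
  have h5 : (LinearMap.ker ψ).map U.subtype ≤ Submodule.span K {u} := by
    rintro _ ⟨x, hx, rfl⟩
    exact hcon x.1 x.2 hx
  have h6 := Submodule.finrank_mono h5
  have h7 : Module.finrank K (Submodule.span K {u}) ≤ 1 := by
    have := finrank_span_le_card (R := K) ({u} : Set (I → K))
    simpa using this
  omega

theorem not_span (u v : I → K) (a b : K) (hv : v ∉ Submodule.span K {u}) (h : a • u = b • v) :
    b = 0 := by
  by_contra hb
  refine hv (Submodule.mem_span_singleton.2 ⟨b⁻¹ * a, ?_⟩)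
  rw [← smul_smul, h, smul_smul, inv_mul_cancel₀ hb, one_smul]

/-- the vectors of `U` are eigenvectors -/
theorem eig (η f : Matrix I I K) (U : Submodule K (I → K)) (h3 : 3 ≤ Module.finrank K U)
    (hc : ∀ u ∈ U, ∀ v ∈ U, ∀ x, (v ⬝ᵥ (η *ᵥ x)) • (f *ᵥ u) - (u ⬝ᵥ (η *ᵥ x)) • (f *ᵥ v) =
      (v ⬝ᵥ (η *ᵥ (f *ᵥ x))) • u - (u ⬝ᵥ (η *ᵥ (f *ᵥ x))) • v)
    (hsymm : ∀ u ∈ U, ∀ v ∈ U, v ⬝ᵥ (η *ᵥ u) = u ⬝ᵥ (η *ᵥ v))
    (hnd : ∀ u ∈ U, (∀ v ∈ U, u ⬝ᵥ (η *ᵥ v) = 0) → u = 0) :
    ∀ u ∈ U, ∃ c : K, f *ᵥ u = c • u := by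
  intro u hu
  obtain ⟨x, hx, hux, hx0⟩ := exists_ker U h3 (fr η u) 0
  have hx0' : x ≠ 0 := by
    intro h
    rw [h] at hx0
    exact hx0 (Submodule.zero_mem _)
  have hux' : u ⬝ᵥ (η *ᵥ x) = 0 := hux
  obtain ⟨v, hv, hxv, hvu⟩ := exists_ker U h3 (fr η x) u
  have hvx : v ⬝ᵥ (η *ᵥ x) = 0 := by
    rw [hsymm x hx v hv]
    exact hxv
  have h1 := hc u hu v hv x
  rw [hvx, hux', zero_smul, zero_smul, sub_zero] at h1
  have h2 : u ⬝ᵥ (η *ᵥ (f *ᵥ x)) = 0 :=
    not_span u v _ _ hvu (sub_eq_zero.1 h1.symm)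
  have h4 : ∃ w ∈ U, x ⬝ᵥ (η *ᵥ w) ≠ 0 := by
    by_contra hcon
    push Not at hcon
    exact hx0' (hnd x hx hcon)
  obtain ⟨w, hw, hxw⟩ := h4
  have h5 := hc u hu w hw x
  rw [hux', h2, zero_smul, zero_smul, sub_zero, sub_zero] at h5
  rw [← hsymm x hx w hw] at hxw
  refine ⟨(w ⬝ᵥ (η *ᵥ x))⁻¹ * (w ⬝ᵥ (η *ᵥ (f *ᵥ x))), ?_⟩
  rw [← smul_smul, ← h5, smul_smul, inv_mul_cancel₀ hxw, one_smul]

/-- an operator whose eigenvectors are all vectors of `U` is a scalar on `U` -/
theorem scal (f : Matrix I I K) (U : Submodule K (I → K)) (h3 : 3 ≤ Module.finrank K U)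
    (he : ∀ u ∈ U, ∃ c : K, f *ᵥ u = c • u) : ∃ c : K, ∀ u ∈ U, f *ᵥ u = c • u := by
  obtain ⟨u0, hu0, -, hn⟩ := exists_ker U h3 0 0
  obtain ⟨c, hc⟩ := he u0 hu0
  refine ⟨c, fun v hv => ?_⟩
  by_cases hs : v ∈ Submodule.span K {u0}
  · obtain ⟨a, ha⟩ := Submodule.mem_span_singleton.1 hs
    rw [← ha, Matrix.mulVec_smul, hc, smul_smul, smul_smul, mul_comm]
  obtain ⟨d, hd⟩ := he v hv
  obtain ⟨e, he'⟩ := he (u0 + v) (U.add_mem hu0 hv)
  rw [Matrix.mulVec_add, hc, hd, smul_add] at he'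
  have h1 : (c - e) • u0 = (e - d) • v := by
    rw [sub_smul, sub_smul, sub_eq_sub_iff_add_eq_add, he', add_comm]
  have h2 := not_span u0 v _ _ hs h1
  rw [h2, zero_smul] at h1
  have h4 : c - e = 0 := by
    rcases smul_eq_zero.1 h1 with h | h
    · exact h
    · rw [h] at hn
      exact absurd (Submodule.zero_mem _) hn
  have h5 : d = c := by linear_combination -h2 - h4
  rw [hd, h5]

end alg

section weil

variable {K : Type} [Field K] [CharZero K] {W : Weil K} {V : W.Var 0} {L : W.Hom V V} {r m : ℕ}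
  {T : W.Var m} (S : W.Orthogonal V L r T)

theorem van_symm (u : W.H T) (hu : W.InH T (W.dim T) u) (a : Fin (W.rk T)) :
    (S.powers.form *ᵥ u) a = ∑ c, u c * S.powers.form c a := by
  show ∑ c, S.powers.form a c * u c = _
  refine Finset.sum_congr rfl fun c _ => ?_
  by_cases h1 : u c = 0
  · rw [h1]
    ring
  by_cases h2 : S.powers.form c a = 0
  · rw [S.powers.form_symm a c, h2]
    ring
  have h3 := form_par S.powers c a h2
  have h4 : W.par T c = false := by
    unfold Weil.par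
    rw [hu c h1]
    simp [S.even]
  rw [S.powers.form_symm a c, ← h3, h4]
  have h5 : ks K false false = 1 := by simp [ks]
  rw [h5]
  ring

theorem van_swap (u x : W.H T) (hu : W.InH T (W.dim T) u) :
    x ⬝ᵥ (S.powers.form *ᵥ u) = u ⬝ᵥ (S.powers.form *ᵥ x) := by
  rw [← row_mulVec S.powers.form u x]
  show ∑ a, x a * (S.powers.form *ᵥ u) a = _
  refine Finset.sum_congr rfl fun a _ => ?_
  rw [van_symm S u hu, mul_comm]

theorem van_orth (u : W.H T) (hu : W.Vanishing S.toGenericIntersection u) (y : W.H V) :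
    u ⬝ᵥ (S.powers.form *ᵥ (W.ap S.up y)) = 0 := by
  have h1 := S.orth u hu y
  rw [← van_swap S u _ hu.1, ← h1]
  show ∑ a, W.ap S.up y a * ∑ b, S.powers.form a b * u b = _
  refine Finset.sum_congr rfl fun a _ => ?_
  rw [Finset.mul_sum]
  refine Finset.sum_congr rfl fun b _ => ?_
  ring

/-- the correspondences commute with the operators of the vanishing classes -/
theorem cyc_comm (f : W.Hom T T) (hf : f ∈ W.cyc T T 0) (u v : W.H T)
    (hu : W.Vanishing S.toGenericIntersection u) (hv : W.Vanishing S.toGenericIntersection v) :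
    Mo S.powers.form u v * f = f * Mo S.powers.form u v := by
  obtain ⟨t, ht, hft⟩ := (S.powers.graph_one f).1 hf
  have hX : f = (Matrix.of fun a c => t [a, c]) * S.powers.form := by
    rw [hft]
    ext a b
    rw [Matrix.mul_apply]
    show opw S.powers.form 1 t [a] [b] = _
    rw [opw_one]
    rfl
  rw [hX]
  refine Mo_comm _ _ _ _ ?_ (van_symm S u hu.1) (van_symm S v hv.1)
  intro a c
  have h1 := S.monodromy u v hu hv 1 t ht [a, c] rfl
  rw [← h1]
  show ∑ b, Mo S.powers.form u v a b * t [b, c] + ∑ b, t [a, b] * Mo S.powers.form u v c b =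
    ∑ b, Mo S.powers.form u v a b * t [b, c] + (∑ b, Mo S.powers.form u v c b * t [a, b] + 0)
  rw [add_zero]
  congr 1
  refine Finset.sum_congr rfl fun b _ => ?_
  ring

theorem cyc_comm' (f : W.Hom T T) (hf : f ∈ W.cyc T T 0) (u v x : W.H T)
    (hu : W.Vanishing S.toGenericIntersection u) (hv : W.Vanishing S.toGenericIntersection v) :
    (v ⬝ᵥ (S.powers.form *ᵥ x)) • (f *ᵥ u) - (u ⬝ᵥ (S.powers.form *ᵥ x)) • (f *ᵥ v) =
      (v ⬝ᵥ (S.powers.form *ᵥ (f *ᵥ x))) • u - (u ⬝ᵥ (S.powers.form *ᵥ (f *ᵥ x))) • v := by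
  have h2 := congrArg (fun A : W.Hom T T => A *ᵥ x) (cyc_comm S f hf u v hu hv)
  simp only [← Matrix.mulVec_mulVec, Mo_mulVec, Matrix.mulVec_sub, Matrix.mulVec_smul] at h2
  exact h2.symm

/-- the space of the vanishing classes -/
def Van : Submodule K (W.H T) where
  carrier := {u | W.Vanishing S.toGenericIntersection u}
  add_mem' := by
    intro u v hu hv
    refine ⟨?_, ?_⟩
    · intro a ha
      by_cases h1 : u a = 0
      · by_cases h2 : v a = 0
        · exact absurd (by simp [h1, h2]) ha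
        · exact hv.1 a h2
      · exact hu.1 a h1
    · show S.down *ᵥ (u + v) = 0
      have h1 : S.down *ᵥ u = 0 := hu.2
      have h2 : S.down *ᵥ v = 0 := hv.2
      rw [Matrix.mulVec_add, h1, h2, add_zero]
  zero_mem' := by
    refine ⟨?_, ?_⟩
    · intro a ha
      exact absurd rfl ha
    · show S.down *ᵥ (0 : W.H T) = 0
      exact Matrix.mulVec_zero _
  smul_mem' := by
    intro c u hu
    refine ⟨?_, ?_⟩
    · intro a ha
      exact hu.1 a (right_ne_zero_of_mul ha)
    · show S.down *ᵥ (c • u) = 0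
      have h1 : S.down *ᵥ u = 0 := hu.2
      rw [Matrix.mulVec_smul, h1, smul_zero]

theorem mem_Van (u : W.H T) : u ∈ Van S ↔ W.Vanishing S.toGenericIntersection u := Iff.rfl

end weil

theorem pf_SCO (hVAO : T_VAO) : T_SCO := by
  intro K _ _ W hW V L hL r m T S f hf
  obtain ⟨-, v2, v3, v4⟩ := hVAO K W hW V L hL r m T S
  have h3 : 3 ≤ Module.finrank K (Van S) := by
    have h1 := v4 (Van S) (mem_Van S)
    have h2 := S.large
    nlinarith [sq_nonneg (W.rk V)]
  -- the range of `up` is stable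
  have hup : ∀ y : W.H V, ∃ y' : W.H V, f *ᵥ (W.ap S.up y) = W.ap S.up y' := by
    intro y
    obtain ⟨v, y', hv, hx⟩ := v2 (f *ᵥ (W.ap S.up y))
    refine ⟨y', ?_⟩
    have h1 : v = 0 := by
      refine v3 v hv ?_
      intro w hw
      obtain ⟨u, hu, -, hn⟩ := exists_ker (Van S) h3 0 w
      have h2 := cyc_comm' S f hf w u (W.ap S.up y) hw hu
      rw [van_orth S u hu y, van_orth S w hw y, zero_smul, zero_smul, sub_zero] at h2
      have h5 := not_span w u _ _ hn (sub_eq_zero.1 h2.symm)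
      rw [hx, Matrix.mulVec_add, dotProduct_add, van_orth S w hw y', add_zero] at h5
      rw [van_swap S w v hw.1]
      exact h5
    rw [hx, h1, zero_add]
  obtain ⟨c, hc⟩ := scal f (Van S) h3 (eig S.powers.form f (Van S) h3
    (fun u hu v hv x => cyc_comm' S f hf u v x hu hv)
    (fun u hu v _ => van_swap S u v hu.1) v3)
  refine S.cycles f hf ?_
  intro g hg
  obtain ⟨-, hgdeg⟩ := S.Gal_deg g hg
  have hgup : ∀ y : W.H V, g *ᵥ (W.ap S.up y) = W.ap S.up y := by
    intro y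
    have h1 : g * S.up = S.up := S.up_inv g hg
    show g *ᵥ (S.up *ᵥ y) = S.up *ᵥ y
    rw [Matrix.mulVec_mulVec, h1]
  have hgvan : ∀ u, W.Vanishing S.toGenericIntersection u →
      W.Vanishing S.toGenericIntersection (g *ᵥ u) := by
    intro u hu
    refine ⟨?_, ?_⟩
    · intro b hb
      have h1 : ∃ a, g b a * u a ≠ 0 := by
        by_contra hcon
        push Not at hcon
        refine hb ?_
        show ∑ a, g b a * u a = 0
        exact Finset.sum_eq_zero fun a _ => hcon a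
      obtain ⟨a, ha⟩ := h1
      have h2 := hgdeg b a (left_ne_zero_of_mul ha)
      have h3 := hu.1 a (right_ne_zero_of_mul ha)
      rw [h3] at h2
      omega
    · have h1 : S.down * g = S.down := S.down_inv g hg
      show S.down *ᵥ (g *ᵥ u) = 0
      rw [Matrix.mulVec_mulVec, h1]
      exact hu.2
  show g * f = f * g
  refine Matrix.mulVec_injective (funext fun x => ?_)
  obtain ⟨v, y, hv, hx⟩ := v2 x
  obtain ⟨y', hy'⟩ := hup y
  rw [← Matrix.mulVec_mulVec, ← Matrix.mulVec_mulVec, hx, Matrix.mulVec_add, Matrix.mulVec_add,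
    Matrix.mulVec_add, Matrix.mulVec_add, hc v hv, hy', hgup, hgup, hy', hc _ (hgvan v hv),
    Matrix.mulVec_smul]

end Pool.Agent.H46.EV
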